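import Pool.Agent.K1H59.LZ.Outside
import Pool.Agent.K1H59.LZ.Card

/-!
# Odd zeta values over Liouville fields

Let `𝓕` be a filter of natural numbers which is finer than the filter of the neighbourhoods of infinity (for example
the tails of a sequence which tends to infinity, or a non-principal ultrafilter). The real numbers `x` such that, for
some `C`, for all `N` and for `𝓕`-almost all `n` there is a fraction `p / q` with `q ≤ n ^ C` and
`|x - p / q| ≤ n ^ (-N)` (`Appr 𝓕 x` below) form a field, a Liouville field in the sense of Maillet, Erdős, Kumar,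
Thangadurai and Waldschmidt. It may be as large as possible, of the cardinality of the continuum, so that it contains
continuum many algebraically independent numbers, and every Liouville number lies in such a field. (These fields, for
filters given by sequences, are in the starting files `MP_4f096c_nt/LiouvilleFields`, `MP_db0fbf_nt/LiouvilleFields`
(`Pool/Agent/R701/LV/`), where it is shown that they do not contain all the `ζ(j)`, `9 ≤ j ≤ 21`, or `11 ≤ j ≤ 27`.)

The theorem says that the known results on the linear independence of odd zeta values over the rational numbers hold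
over every such field `L` and over its finite extensions `F`: for `d ≥ [F : L]` and `s ≥ C ^ d` there are at least
`c ^ d (s ^ 2 / log s) ^ (1 / 3)` odd `j ≤ s` such that `ζ(j)` is not in `F` (`c, C > 0` absolute constants); more
generally, for an `F`-space `V` of real numbers of dimension at most `v`, there are `K` disjoint sets of `S` odd
integers in `(b, s]` such that the `ζ(j)`, `j` in any one of them, are linearly independent over `F` modulo `V`, as soon
as `2 ^ (66 d (v + S)) (b + 1) K S log (K S + 1) ≤ s` and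
`2 ^ (132 d (v + S)) (b + 1) (K S) ^ 3 log (K S + 1) ≤ s ^ 2`. For `K = 1`, `V = F`, this is a theorem of Ball-Rivoal
type over uncountable fields: the space over `F` which is spanned by `1, ζ(3), ζ(5), …, ζ(s)` has at least the
dimension `(c / d) log s`, for `s ≥ C ^ d`.

Proof. An `L`-space `W ∋ 1` of dimension `D` is approximated by rational spaces: if `ζ(j)`, `j ∈ J`, are in `W`, their
coordinates with respect to a basis `1, w_2, …, w_D` are replaced by fractions with a common denominator `q ≤ n ^ C`,
with an error `n ^ (-N)`, and Dirichlet's theorem for `w_2, …, w_D`, with a bound `n ^ E` which is much larger than the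
numerators and much smaller than `n ^ N`, gives arbitrarily large `m` such that `‖m ζ(j)‖ < m ^ (-1 / D)` for all `j ∈ J`
(`approx_of_mem` in `Pool/Agent/K1H59/LZ/Outside.lean`). This is excluded for large sets `J` by the second part of the
file `ManyInWindows` of this folder (helper76), which sharpens the starting file `OddZetaTwoThirds`. The greedy choice of
the sets (`Pool/Agent/R355/Greedy.lean`) is that of the starting file `DisjointIndependentSets`; the case `L = ℚ` is
`DisjointSetsInWindows` (helper76).
-/

set_option autoImplicit false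

namespace Pool.Agent.Results.MP_c2395a_nt.LiouvilleFields

open Filter Module Cardinal Pool.Agent.K1H59.LZ

/-- `ζ(j)` -/
noncomputable def zeta (j : ℕ) : ℝ := ∑' n : ℕ, 1 / ((n : ℝ) + 1) ^ j

/-- **Odd zeta values over Liouville fields.** -/
theorem result :
    -- the fields: existence, size, Liouville numbers
    ((∀ 𝓕 : Filter ℕ, 𝓕 ≤ atTop → ∃ L : Subfield ℝ, ∀ x, x ∈ L ↔ Appr 𝓕 x) ∧
      (∃ 𝓕 : Filter ℕ, 𝓕.NeBot ∧ 𝓕 ≤ atTop ∧ #{x : ℝ // Appr 𝓕 x} = 𝔠) ∧
      ∀ x : ℝ, Liouville x → ∃ 𝓕 : Filter ℕ, 𝓕.NeBot ∧ 𝓕 ≤ atTop ∧ Appr 𝓕 x) ∧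
    -- many disjoint sets, linearly independent over a finite extension of `L` modulo a space of finite dimension
    ∀ (𝓕 : Filter ℕ) (_ : 𝓕.NeBot) (_ : 𝓕 ≤ atTop) (L : Subfield ℝ) (_ : ∀ x ∈ L, Appr 𝓕 x)
      (F : IntermediateField L ℝ) (V : Submodule F ℝ) (b K s S d v : ℕ), 1 ≤ K → 1 ≤ S →
      Module.Finite L F → finrank L F ≤ d → Module.Finite F V → finrank F V ≤ v →
      (2 : ℝ) ^ (66 * (d * (v + S))) * ((b : ℝ) + 1) * ((K : ℝ) * S) * Real.log ((K : ℝ) * S + 1) ≤ (s : ℝ) →
      (2 : ℝ) ^ (132 * (d * (v + S))) * ((b : ℝ) + 1) * ((K : ℝ) * S) ^ 3 * Real.log ((K : ℝ) * S + 1) ≤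
        (s : ℝ) ^ 2 →
      ∃ J : Fin K → Finset ℕ, (∀ i i', i ≠ i' → Disjoint (J i) (J i')) ∧ ∀ i, (J i).card = S ∧
        (∀ j ∈ J i, b < j ∧ j ≤ s ∧ Odd j) ∧ LinearIndependent F (fun j : J i => V.mkQ (zeta j)) := by
  refine ⟨⟨fun 𝓕 h𝓕 => ⟨LF 𝓕 h𝓕, fun x => Iff.rfl⟩, ⟨G3, inferInstance, G3_le, card_G3⟩,
    fun x hx => exists_filter_of_liouville hx⟩, ?_⟩
  intro 𝓕 hne h𝓕 L hL F V b K s S d v hK hS hfin hF hfinV hV hs1 hs2
  have hL' : ∀ x : L, Appr 𝓕 (algebraMap L ℝ x) := fun x => hL x x.2
  exact disjoint_sets h𝓕 L hL' hK hS hs1 hs2 F hF V hV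

end Pool.Agent.Results.MP_c2395a_nt.LiouvilleFields
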