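import Pool.Agent.K1H59.LZ.Small
import Pool.Agent.Results.MP_c2395a_nt.PlaneDistanceZeta7

/-!
# `1, ζ(3), ζ(5), ζ(7)` over Liouville fields

Let `𝓕` be a filter of natural numbers which is finer than the filter of the neighbourhoods of infinity, and let `L` be
a field of real numbers `x` such that, for some `C`, for all `N` and for `𝓕`-almost all `n` there is a fraction `p / q`
with `q ≤ n ^ C` and `|x - p / q| ≤ n ^ (-N)` (`Appr 𝓕 x`); there are such fields of the cardinality of the continuum
(see the file `LiouvilleFields` of this folder). Then `1, ζ(3), ζ(5), ζ(7)` span an `L`-space of dimension at least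
three; in particular `ζ(3), ζ(5), ζ(7)` do not all lie in a real quadratic extension of `L`.

If the dimension is at most two then the three values are of the form `a + b θ` with `a`, `b` in `L` and one real
number `θ` (`three_le_finrank` in `Pool/Agent/K1H59/LZ/Small.lean`); `a` and `b` are replaced by fractions with
a common denominator, and the distance of `(ζ(3), ζ(5), ζ(7))` from the rational lines (starting file
`PlaneDistanceZeta7`) is used.
-/

set_option autoImplicit false

namespace Pool.Agent.Results.MP_c2395a_nt.LiouvilleFieldsSmall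

open Filter Module Pool.Agent.K1H59.LZ

/-- `ζ(j)` -/
noncomputable def zeta (j : ℕ) : ℝ := ∑' n : ℕ, 1 / ((n : ℝ) + 1) ^ j

/-- **`1, ζ(3), ζ(5), ζ(7)` over Liouville fields.** -/
theorem result (𝓕 : Filter ℕ) (hne : 𝓕.NeBot) (h𝓕 : 𝓕 ≤ atTop) (L : Subfield ℝ) (hL : ∀ x ∈ L, Appr 𝓕 x) :
    3 ≤ finrank L (Submodule.span L {1, zeta 3, zeta 5, zeta 7}) := by
  have hL' : ∀ x : L, Appr 𝓕 (algebraMap L ℝ x) := fun x => hL x x.2
  obtain ⟨⟨c, hc, h⟩, -⟩ := Pool.Agent.Results.MP_c2395a_nt.PlaneDistanceZeta7.result
  have key := three_le_finrank h𝓕 L hL' ![1, zeta 3, zeta 5, zeta 7] rfl c hc 1070 (by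
    intro q a b θ H hq hqH hb
    obtain ⟨i, hi, hle⟩ := h q (fun i => if i = 3 then a 1 else if i = 5 then a 2 else a 3)
      (fun i => if i = 3 then b 1 else if i = 5 then b 2 else b 3) θ H hq hqH
      (by simpa using hb 1 (by decide)) (by simpa using hb 2 (by decide)) (by simpa using hb 3 (by decide))
    rcases hi with rfl | rfl | rfl
    · exact ⟨1, by decide, by simpa [zeta] using hle⟩
    · exact ⟨2, by decide, by simpa [zeta] using hle⟩
    · exact ⟨3, by decide, by simpa [zeta] using hle⟩)
  have e : Set.range ![(1 : ℝ), zeta 3, zeta 5, zeta 7] = {1, zeta 3, zeta 5, zeta 7} := by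
    simp [Matrix.range_cons, Matrix.range_empty]
    ext x
    simp
    tauto
  rwa [e] at key

end Pool.Agent.Results.MP_c2395a_nt.LiouvilleFieldsSmall
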