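import Pool.Agent.K1H76.MW.Main

/-!
# Irrational odd zeta values in windows `(b, s]`: several orders of derivatives at once

For `K ≥ 1` at least `K` of the odd `j` in `(b, s]` have an irrational `ζ(j)` as soon as
`2^66 (b + 1) K log (K + 1) ≤ s` and `2^132 (b + 1) K³ log (K + 1) ≤ s²`, and there is a version with simultaneous
approximation. The starting file `OddZetaTwoThirds` needs `2^132 (b + 1)² K³ log (K + 1) ≤ s²`, which implies both
conditions because `log (K + 1) ≤ K`; so the present theorem contains it, and it is stronger by a power of `b + 1`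
when `b` grows with `s`: with `x = s / (b + 1)` the starting file gives `K` of the order `(x² / log x)^(1/3)`, the
present theorem gives the order of the minimum of `x / log x` and `((b + 1) x² / log s)^(1/3)`, which is `x / log x` up
to logarithms as soon as `b ≥ √s`.

Proof. The linear forms of the starting file are
`∑_{d ≤ 2K} ∑_{t ≥ 1} (1/b!) (d/dx)^b [R(x) P_d(y(x))]_(x = t/d)`, where
`R(x) = (2x + n - 1) / (x (x+1) ⋯ (x+n-1))^(2h)`, `y(x) = x (x + n - 1)`; the polynomials `P_d = ∑_l w_l(d) Q_l` come
from Siegel's lemma, such that the terms with `x < r n` cancel. Here the forms with the orders of derivatives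
`b, b + 2, …, 2b - 2` are used at the same time, for the same `P_d`. One of the forms with shifted parameters has to be
nonzero. The zero estimate is new: the values of `V` derivatives at the fractions are `V` columns of a determinant of
Casorati type; if all of them vanish (including the forms of all `V` orders), a space of rational functions which is
stable under the shift and the symmetry has a dimension which is `V` times larger than before, and the degrees of the
polynomials `P_d` can be smaller by this factor. In this way `(b + 1)² K³` becomes `(b + 1)² K³ / V` with `V` of the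
order `b`.

The parts are in `Pool/Agent/K1H76/MW/` (`Ze1.lean`, `Ze2.lean`, `Tel.lean`, `Zt.lean`: the zero estimate for several
orders; `Par.lean`, `Core.lean`, `Main.lean`: the assembly); everything which does not depend on the number of orders
is taken from the starting library `Pool/Agent/Y926/TW/`.
-/

set_option autoImplicit false

namespace Pool.Agent.Results.MP_c2395a_nt.ManyInWindows

/-- **Many irrational odd zeta values in windows.** Let `K, S ≥ 1`, `2^(66 S) (b + 1) K log (K + 1) ≤ s` and
`2^(132 S) (b + 1) K³ log (K + 1) ≤ s²`. Then at least `K` of the odd `j` with `b < j ≤ s` have an irrational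
`ζ(j) = ∑ 1/(n+1)^j`; and for all large `q` at least `K` of them have distance `≥ q^(-1/S)` from `q ζ(j)` to the
nearest integer. -/
theorem result : ∀ b K s S : ℕ, 1 ≤ K → 1 ≤ S →
    (2 : ℝ) ^ (66 * S) * ((b : ℝ) + 1) * (K : ℝ) * Real.log (K + 1) ≤ (s : ℝ) →
    (2 : ℝ) ^ (132 * S) * ((b : ℝ) + 1) * (K : ℝ) ^ 3 * Real.log (K + 1) ≤ (s : ℝ) ^ 2 →
    K ≤ Set.ncard {j : ℕ | b < j ∧ j ≤ s ∧ Odd j ∧ Irrational (∑' n : ℕ, 1 / ((n : ℝ) + 1) ^ j)} ∧
    ∃ q0 : ℕ, ∀ q ≥ q0, K ≤ Set.ncard {j : ℕ | b < j ∧ j ≤ s ∧ Odd j ∧
      ∀ p : ℤ, (q : ℝ) ^ (-(1 / (S : ℝ))) ≤ |(q : ℝ) * (∑' n : ℕ, 1 / ((n : ℝ) + 1) ^ j) - p|} :=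
  Pool.Agent.K1H76.MW.main

end Pool.Agent.Results.MP_c2395a_nt.ManyInWindows
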