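import Pool.Agent.K1H98.NF.Main

/-!
# Odd zeta values without near linear relations, at every scale and over all number fields

Let `K, S, d ≥ 1`, `v, b ≥ 0` be integers with `2 ^ (66 d (v + S)) (b + 1) K S log (K S + 1) ≤ s` and
`2 ^ (132 d (v + S)) (b + 1) (K S) ^ 3 log (K S + 1) ≤ s ^ 2`. There is `X₀` such that for every `X ≥ X₀`, for EVERY
real number field `F` of degree at most `d` and for ALL real numbers `t_1, …, t_v` (all of them may depend on `X`; `X₀`
does not depend on them) there are `K` pairwise disjoint sets `J` of `S` odd integers in `(b, s]` with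

  `|∑_{j ∈ J} a_j ζ(j) + ∑ e_l t_l + e_0| ≥ X ^ (-2 s (d (v + S) + 1) ^ 4)`

for all algebraic integers `a_j`, `e_l`, `e_0` of `F` all of whose conjugates are at most `X`, not all `a_j`, `j ∈ J`,
being zero. So the `ζ(j)`, `j ∈ J`, are linearly independent over `F` modulo the space spanned by `1` and the `t_l`, with
a measure, at the scale `X`.

The starting file `DisjointIndependentSets` (sharpened by the windows of `ManyInWindows` of this folder) is the
qualitative form for a fixed field `F` and a fixed space (no exact relation); it follows by the pigeonhole principle,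
because one of the finitely many families of sets occurs for infinitely many `X`. New are the measure and the
uniformity in the field and in the space. Example (`S = 1`, `v = 0`; second question of the problem): let `α_j = β_j / m_j`
be algebraic numbers with `|ζ(j) - α_j| < X ^ (-w)`, where `β_j` is an algebraic integer with conjugates at most `X`,
`1 ≤ m_j ≤ X`; if this holds for all but `K - 1` of the odd `j ≤ s` then the `α_j` do not lie in a common real field of
degree at most `d`. (So good algebraic approximations of bounded height of the odd zeta values cannot lie in fields of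
bounded degree, whatever the field.)

Proof. If a set `J` without near relations cannot be enlarged, all other `ζ(j)` are close to linear combinations of
`1`, `t_l`, `ζ(i)`, `i ∈ J`, with coefficients in `F`, after multiplication of the relation by `N(a_j) / a_j`. All the
coefficients which occur span a rational space of dimension at most `d`; it has a basis `ω_0 = 1, ω_1, …` consisting of
coefficients with respect to which all of them have small numerators and denominators: the coordinates at `ω_1, ω_2, …`
are at most `1` if the basis is chosen with a maximal determinant (Auerbach), and the denominators are small because a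
nonzero algebraic integer has a conjugate of absolute value at least `1` (Dirichlet's theorem). So all other `ζ(j)` are
close to rational combinations of the numbers `ω_k ζ(i)`, `ω_k t_l`, `ω_k`, less than `d (v + S)` besides `1`, and
Dirichlet's theorem with a common denominator gives an integer `q` such that all `q ζ(j)` are closer than
`q ^ (-1 / (d (v + S)))` to integers, which is excluded by the second part of `ManyInWindows`
(`Pool/Agent/K1H98/NF/`, `Pool/Agent/K1H98/NR/`; pieces by helpers 63, 86, 90).
-/

set_option autoImplicit false

namespace Pool.Agent.Results.MP_c2395a_nt.NearRelationsEveryScale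

open Module

/-- **Odd zeta values without near linear relations, at every scale and over all number fields.** -/
theorem result (b K s S v d : ℕ) (hK : 1 ≤ K) (hS : 1 ≤ S)
    (hs1 : (2 : ℝ) ^ (66 * (d * (v + S))) * ((b : ℝ) + 1) * ((K : ℝ) * S) * Real.log ((K : ℝ) * S + 1) ≤ (s : ℝ))
    (hs2 : (2 : ℝ) ^ (132 * (d * (v + S))) * ((b : ℝ) + 1) * ((K : ℝ) * S) ^ 3 * Real.log ((K : ℝ) * S + 1) ≤
      (s : ℝ) ^ 2) :
    ∃ X0 : ℕ, ∀ X ≥ X0, ∀ F : IntermediateField ℚ ℝ, FiniteDimensional ℚ F → finrank ℚ F ≤ d → ∀ t : Fin v → ℝ,
      ∃ J : Fin K → Finset ℕ, (∀ i i', i ≠ i' → Disjoint (J i) (J i')) ∧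
      ∀ i, (J i).card = S ∧ (∀ j ∈ J i, b < j ∧ j ≤ s ∧ Odd j) ∧
        ∀ (a : ℕ → F) (e : Fin v → F) (e0 : F),
          (∀ j, IsIntegral ℤ (a j) ∧ ∀ σ : F →+* ℂ, ‖σ (a j)‖ ≤ X) →
          (∀ l, IsIntegral ℤ (e l) ∧ ∀ σ : F →+* ℂ, ‖σ (e l)‖ ≤ X) →
          (IsIntegral ℤ e0 ∧ ∀ σ : F →+* ℂ, ‖σ e0‖ ≤ X) → (∃ j ∈ J i, a j ≠ 0) →
          1 / (X : ℝ) ^ (2 * s * (d * (v + S) + 1) ^ 4) ≤
            |∑ j ∈ J i, (a j : ℝ) * (∑' n : ℕ, 1 / ((n : ℝ) + 1) ^ j) + ∑ l, (e l : ℝ) * t l + e0| :=
  Pool.Agent.K1H98.NF.main b K s S v d hK hS hs1 hs2

end Pool.Agent.Results.MP_c2395a_nt.NearRelationsEveryScale
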